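import Pool.Agent.HUK.StmtsA

set_option autoImplicit false

namespace Pool.Agent.HUK.H95

open Polynomial NumberField Matrix Pool.Agent.MTL Pool.Agent.MTL.H34 Pool.Agent.Helper78_MT
  Pool.Agent.HIK Pool.Agent.HIP Pool.Agent.MTPN Pool.Agent.MTN Pool.Agent.HUK

theorem dga : DgaStmt := by
  intro δ S hS m A
  choose C hC using fun j : ℕ => hS j m A
  refine ⟨∑ j ∈ Finset.range (m + 1), |C j|, ?_⟩
  intro X hX x hx
  have hx0 := hx
  obtain ⟨p, hp0, hpm, _, hz⟩ := hx
  set d := (minpoly ℚ x).natDegree with hd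
  have hdm : d ≤ m := by
    have hz' : aeval x (p.map (Int.castRingHom ℚ)) = 0 := by
      rw [aeval_def, eval₂_map]
      rw [aeval_def] at hz
      rw [← hz]
      congr 1
    have hne : p.map (Int.castRingHom ℚ) ≠ 0 := by
      intro h
      apply hp0
      exact (Polynomial.map_eq_zero_iff (RingHom.injective_int (Int.castRingHom ℚ))).1 h
    have h1 := natDegree_le_of_dvd (minpoly.dvd ℚ x hz') hne
    exact (h1.trans natDegree_map_le).trans hpm
  have key : ∀ κ : ℕ, (minpoly ℚ (x + κ)).natDegree = d := by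
    intro κ
    have h1 : x + (κ : QB) = x + algebraMap ℚ QB (κ : ℚ) := by
      rw [map_natCast]
    rw [h1, minpoly.add_algebraMap, natDegree_comp, natDegree_X_sub_C, mul_one]
  have hset : {κ : ℕ | κ < X ∧ x + (κ : QB) ∈ {α : QB | α ∈ S (minpoly ℚ α).natDegree}} =
      {κ : ℕ | κ < X ∧ x + (κ : QB) ∈ S d} := by
    ext κ
    simp only [Set.mem_ofPred_eq]
    rw [key κ]
  have h2 := hC d X hX x hx0
  have h3 : Nat.card {κ : ℕ // κ < X ∧ x + (κ : QB) ∈ {α : QB | α ∈ S (minpoly ℚ α).natDegree}} =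
      Nat.card {κ : ℕ // κ < X ∧ x + (κ : QB) ∈ S d} := by
    exact congrArg (fun s : Set ℕ => Nat.card s) hset
  rw [h3]
  refine h2.trans ?_
  have h4 : C d ≤ ∑ j ∈ Finset.range (m + 1), |C j| := by
    refine (le_abs_self _).trans ?_
    exact Finset.single_le_sum (f := fun j => |C j|) (fun _ _ => abs_nonneg _)
      (Finset.mem_range.2 (Nat.lt_succ_of_le hdm))
  exact mul_le_mul_of_nonneg_right h4 (Real.rpow_nonneg (Nat.cast_nonneg _) _)

end Pool.Agent.HUK.H95
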