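import Pool.Agent.HUK.Stmts
import Mathlib

set_option autoImplicit false

namespace Pool.Agent.HUK.H95

open Polynomial Pool.Agent.HUK

theorem cau : CauStmt := by
  intro E _ e m B a ha
  obtain ⟨p, hp, _, hB, hz⟩ := ha
  have h1 : aeval (e a) p = 0 := by
    have h2 := congrArg e hz
    rw [map_zero] at h2
    rw [← h2]
    rw [aeval_def, aeval_def, hom_eval₂]
    congr 1
    exact Subsingleton.elim _ _
  set q : ℂ[X] := p.map (Int.castRingHom ℂ) with hq
  have hqm : q.Monic := hp.map _
  have hroot : q.IsRoot (e a) := by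
    rw [IsRoot.def, hq, eval_map]
    rw [aeval_def] at h1
    exact h1
  have h3 := hroot.norm_lt_cauchyBound hqm.ne_zero
  have h4 : cauchyBound q ≤ (B : NNReal) + 1 := by
    unfold cauchyBound
    rw [hqm.leadingCoeff, nnnorm_one, div_one]
    gcongr
    refine Finset.sup_le ?_
    intro i _
    rw [hq, coeff_map]
    have h5 := hB i
    have h6 : ‖(Int.castRingHom ℂ) (p.coeff i)‖ ≤ (B : ℝ) := by
      rw [eq_intCast, Complex.norm_intCast]
      exact_mod_cast h5
    exact_mod_cast h6
  have h7 : ‖e a‖₊ ≤ (B : NNReal) + 1 := (h3.trans_le h4).le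
  exact_mod_cast h7

end Pool.Agent.HUK.H95
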